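import Pool.Agent.helper55.NM.Spec3

/-! # Row GG4 of project NM (MP_7e34bc_co, Q2, middle range, step 2)

The proof of GG3 (helper47) with LY4 in place of LYB: `R^(d I) <= 1`; for fixed `T ⊆ S` the sets `I \ S` (`I ∈ H`, `I ∩ S = T`) are an antichain of nonempty subsets of
the big elements (at least four), so their measure is at most `(8/9) 2ρ(1-ρ)` by LY4; `sum_T ρ^|T| (1-ρ)^(|S|-|T|) = 1`, and `8/9 <= 1 - ε` as `ε <= 1/12`. -/

set_option autoImplicit false

namespace Pool.Agent.helper65.NM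

open Pool.Agent.NM Pool.Agent.helper72.UP Finset Nat

/-- the big part of `I` -/
def GG4_big {p : ℕ} (S : Finset (Fin p)) (I : Finset (Fin p)) : Finset {e : Fin p // e ∉ S} := I.subtype (fun e => e ∉ S)

theorem GG4_card {p : ℕ} (S I : Finset (Fin p)) : (GG4_big S I).card = (I \ S).card := by
  unfold GG4_big
  rw [card_subtype]
  congr 1
  ext e
  simp only [mem_filter, mem_sdiff]

theorem GG4_mem {p : ℕ} (S I : Finset (Fin p)) (e : {e : Fin p // e ∉ S}) : e ∈ GG4_big S I ↔ (e : Fin p) ∈ I := by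
  unfold GG4_big
  exact mem_subtype

theorem GG4_sub {p : ℕ} (S I J : Finset (Fin p)) (h : I ∩ S = J ∩ S) (hb : GG4_big S I ⊆ GG4_big S J) : I ⊆ J := by
  intro e he
  by_cases hS : e ∈ S
  · have h1 : e ∈ I ∩ S := mem_inter.mpr ⟨he, hS⟩
    rw [h] at h1
    exact (mem_inter.mp h1).1
  · have h1 : (⟨e, hS⟩ : {e : Fin p // e ∉ S}) ∈ GG4_big S I := (GG4_mem S I _).mpr he
    exact (GG4_mem S J _).mp (hb h1)

theorem GG4_fcard {p : ℕ} (S : Finset (Fin p)) : Fintype.card {e : Fin p // e ∉ S} = (univ \ S).card := by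
  rw [Fintype.card_subtype]
  congr 1
  ext e
  simp only [mem_filter, mem_sdiff, mem_univ, true_and]

theorem GG4_fib (hLY4 : LY4_stmt) (p : ℕ) (S : Finset (Fin p)) (H : Finset (Finset (Fin p))) (d : Finset (Fin p) → ℕ) (ρ : ℝ)
    (hH : Hyp p S H d) (h1 : 1 / 3 ≤ ρ) (h2 : ρ ≤ 1 / 2) (hc : 4 ≤ (univ \ S).card) (T : Finset (Fin p)) (hT : T ⊆ S) :
    ∑ I ∈ H.filter (fun I => I ∩ S = T), ρ ^ I.card * (1 - ρ) ^ (p - I.card) ≤
      ρ ^ T.card * (1 - ρ) ^ (S.card - T.card) * (8 / 9 * (2 * ρ * (1 - ρ))) := by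
  obtain ⟨hi, hii, _⟩ := hH
  have hρ0 : 0 ≤ ρ := by linarith
  have hρ1 : 0 ≤ 1 - ρ := by linarith
  have hinj : Set.InjOn (GG4_big S) (H.filter (fun I => I ∩ S = T) : Finset (Finset (Fin p))) := by
    intro I hI J hJ hIJ
    rw [mem_coe, mem_filter] at hI hJ
    have e1 : I ∩ S = J ∩ S := by rw [hI.2, hJ.2]
    exact Subset.antisymm (GG4_sub S I J e1 (by rw [hIJ])) (GG4_sub S J I e1.symm (by rw [hIJ]))
  have hL := hLY4 {e : Fin p // e ∉ S} ((H.filter (fun I => I ∩ S = T)).image (GG4_big S)) ρ ?_ ?_ ?_ h1 h2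
  · rw [sum_image hinj, GG4_fcard] at hL
    have hscard : S.card + (univ \ S).card = p := by
      have h3 := card_sdiff_add_card_eq_card (subset_univ S)
      rw [Finset.card_univ, Fintype.card_fin] at h3
      omega
    calc ∑ I ∈ H.filter (fun I => I ∩ S = T), ρ ^ I.card * (1 - ρ) ^ (p - I.card)
        = ∑ I ∈ H.filter (fun I => I ∩ S = T), ρ ^ T.card * (1 - ρ) ^ (S.card - T.card) *
            (ρ ^ (GG4_big S I).card * (1 - ρ) ^ ((univ \ S).card - (GG4_big S I).card)) := by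
          apply sum_congr rfl
          intro I hI
          rw [mem_filter] at hI
          have e1 : (GG4_big S I).card = (I \ S).card := GG4_card S I
          have e2 : I.card = T.card + (I \ S).card := by
            rw [← hI.2]
            have := card_inter_add_card_sdiff I S
            omega
          have e3 : T.card ≤ S.card := card_le_card hT
          have e4 : (I \ S).card ≤ (univ \ S).card := card_le_card (sdiff_subset_sdiff (subset_univ I) (Subset.refl S))
          have e5 : p - I.card = (S.card - T.card) + ((univ \ S).card - (I \ S).card) := by omega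
          rw [e1, e5, e2, pow_add, pow_add]
          ring
      _ = ρ ^ T.card * (1 - ρ) ^ (S.card - T.card) *
            ∑ I ∈ H.filter (fun I => I ∩ S = T), (ρ ^ (GG4_big S I).card * (1 - ρ) ^ ((univ \ S).card - (GG4_big S I).card)) := by
          rw [mul_sum]
      _ ≤ ρ ^ T.card * (1 - ρ) ^ (S.card - T.card) * (8 / 9 * (2 * ρ * (1 - ρ))) :=
          mul_le_mul_of_nonneg_left hL (by positivity)
  · intro A hA B hB hAB hsub
    rw [mem_coe, mem_image] at hA hB
    obtain ⟨I, hI, rfl⟩ := hA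
    obtain ⟨J, hJ, rfl⟩ := hB
    rw [mem_filter] at hI hJ
    have e1 : I ∩ S = J ∩ S := by rw [hI.2, hJ.2]
    apply hAB
    rw [hii I hI.1 J hJ.1 e1 (GG4_sub S I J e1 hsub)]
  · intro A hA
    rw [mem_image] at hA
    obtain ⟨I, hI, rfl⟩ := hA
    rw [mem_filter] at hI
    have h3 := hi I hI.1
    rw [not_subset] at h3
    obtain ⟨e, he, heS⟩ := h3
    exact ⟨⟨e, heS⟩, (GG4_mem S I _).mpr he⟩
  · rw [GG4_fcard]
    exact hc

theorem GG4 (hLY4 : LY4_stmt) : GG4_stmt := by
  intro p S H d ε ρ R hH hε hε2 h1 h2 hR0 hR1 hc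
  have hρ0 : 0 < ρ := by linarith
  have hρ1 : 0 < 1 - ρ := by linarith
  calc ∑ I ∈ H, ρ ^ I.card * (1 - ρ) ^ (p - I.card) * R ^ d I
      ≤ ∑ I ∈ H, ρ ^ I.card * (1 - ρ) ^ (p - I.card) := by
        apply sum_le_sum
        intro I _
        have h3 : R ^ d I ≤ 1 := pow_le_one₀ hR0 (by linarith)
        have h4 : 0 ≤ ρ ^ I.card * (1 - ρ) ^ (p - I.card) := by positivity
        nlinarith
    _ = ∑ T ∈ S.powerset, ∑ I ∈ H.filter (fun I => I ∩ S = T), ρ ^ I.card * (1 - ρ) ^ (p - I.card) := by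
        symm
        apply sum_fiberwise_of_maps_to
        intro I _
        rw [mem_powerset]
        exact inter_subset_right
    _ ≤ ∑ T ∈ S.powerset, ρ ^ T.card * (1 - ρ) ^ (S.card - T.card) * (8 / 9 * (2 * ρ * (1 - ρ))) := by
        apply sum_le_sum
        intro T hT
        exact GG4_fib hLY4 p S H d ρ hH (by linarith) (by linarith) hc T (mem_powerset.mp hT)
    _ = 8 / 9 * (2 * ρ * (1 - ρ)) := by
        rw [← sum_mul, sum_pow_mul_eq_add_pow]
        have : ρ + (1 - ρ) = 1 := by ring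
        rw [this, one_pow, one_mul]
    _ ≤ (1 - ε) * (2 * ρ * (1 - ρ)) := by
        have h6 : 0 ≤ 2 * ρ * (1 - ρ) := by positivity
        exact mul_le_mul_of_nonneg_right (by linarith) h6

end Pool.Agent.helper65.NM
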